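import Pool.Agent.TH238.T4Out

set_option autoImplicit false

/-!
Pairs of automorphisms of `ℂ²` whose linear parts are simultaneously diagonalizable with
eigenvalues of modulus in `[C, D]`, `D ^ 4 < C`: all basins are biholomorphic to `ℂ²`.
-/

namespace Pool.Agent.Results.MP_bbd707_an.DiagonalPairs

open Filter Topology

/-- `ℂ²` with the Euclidean norm -/
abbrev V : Type := EuclideanSpace ℂ (Fin 2)

/-- In the linear coordinates `P` the derivative of `H` at `0` is diagonal, with diagonal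
entries of modulus in `[C, D]`. -/
def DiagonalIn (P : V ≃L[ℂ] V) (C D : ℝ) (H : V → V) : Prop :=
  ∃ a : Fin 2 → ℂ, (∀ i, C ≤ ‖a i‖ ∧ ‖a i‖ ≤ D) ∧
    ∀ (v : V) (i : Fin 2), P (fderiv ℂ H 0 v) i = a i * P v i

/-- The basin of the sequence `f`: all points whose orbit tends to `0`. -/
def basin (f : ℕ → V → V) : Set V :=
  {z | ∀ x : ℕ → V, x 0 = z → (∀ n, x (n + 1) = f n (x n)) → Tendsto x atTop (𝓝 0)}

/-- `Ω` is biholomorphic to `ℂ²`. -/
def BiholC2 (Ω : Set V) : Prop :=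
  ∃ φ ψ : V → V, Differentiable ℂ φ ∧ DifferentiableOn ℂ ψ Ω ∧ Set.range φ = Ω ∧
    (∀ z, ψ (φ z) = z) ∧ (∀ w ∈ Ω, φ (ψ w) = w)

theorem result (F G : V ≃ V)
    (hF : Differentiable ℂ ⇑F) (hFs : Differentiable ℂ ⇑F.symm)
    (hG : Differentiable ℂ ⇑G) (hGs : Differentiable ℂ ⇑G.symm)
    (F0 : F 0 = 0) (G0 : G 0 = 0)
    (C D : ℝ) (hC : 0 < C) (hD : D < 1) (hCD : D ^ 4 < C)
    (P : V ≃L[ℂ] V) (dF : DiagonalIn P C D F) (dG : DiagonalIn P C D G)
    (f : ℕ → V → V) (hf : ∀ n, f n = ⇑F ∨ f n = ⇑G) : BiholC2 (basin f) := by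
  have hset : basin f = {z | Tendsto (fun n => Pool.Agent.TH238.orb f n z) atTop (𝓝 0)} := by
    ext z
    constructor
    · intro h
      exact h _ rfl (fun n => rfl)
    · intro h x h1 h2
      have : ∀ n, Pool.Agent.TH238.orb f n z = x n := by
        intro n
        induction n with
        | zero => exact h1.symm
        | succ n ih => rw [h2, ← ih]; rfl
      exact h.congr this
  set Q : V ≃L[ℂ] ℂ × ℂ := P.trans
    ((EuclideanSpace.equiv (Fin 2) ℂ).trans (ContinuousLinearEquiv.piFinTwo ℂ (fun _ => ℂ)))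
    with hQ
  have hQ1 : ∀ v, (Q v).1 = P v 0 := fun v => rfl
  have hQ2 : ∀ v, (Q v).2 = P v 1 := fun v => rfl
  -- local bound for both maps
  have hloc : ∀ H : V → V, Differentiable ℂ H →
      H 0 = 0 → ∃ R : ℝ, 0 < R ∧ ∀ z, ‖z‖ < R → ‖H z‖ ≤ 1 := by
    intro H hH h0
    have h1 : ∀ᶠ z in 𝓝 (0 : V), ‖H z‖ < 1 := by
      have h2 : Tendsto (fun z => ‖H z‖) (𝓝 0) (𝓝 ‖H 0‖) := (hH.continuous.norm).tendsto 0
      exact h2.eventually_lt_const (by rw [h0]; simp)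
    obtain ⟨R, hR, h3⟩ := Metric.eventually_nhds_iff_ball.1 h1
    exact ⟨R, hR, fun z hz => (h3 z (by simpa using hz)).le⟩
  obtain ⟨R1, hR1, hB1⟩ := hloc F hF F0
  obtain ⟨R2, hR2, hB2⟩ := hloc G hG G0
  have key : ∀ n, ∃ (g : V → V) (c : Fin 2 → ℂ),
      Differentiable ℂ (f n) ∧ Differentiable ℂ g ∧ (∀ z, g (f n z) = z) ∧
      (∀ z, f n (g z) = z) ∧ (∀ i, C ≤ ‖c i‖ ∧ ‖c i‖ ≤ D) ∧ f n 0 = 0 ∧
      (∀ (v : V) (i : Fin 2), P (fderiv ℂ (f n) 0 v) i = c i * P v i) ∧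
      ∀ z, ‖z‖ < min R1 R2 → ‖f n z‖ ≤ 1 := by
    intro n
    rcases hf n with h | h
    · obtain ⟨a, ha, hda⟩ := dF
      rw [h]
      exact ⟨F.symm, a, hF, hFs, F.symm_apply_apply, F.apply_symm_apply, ha, F0, hda,
        fun z hz => hB1 z (hz.trans_le (min_le_left _ _))⟩
    · obtain ⟨b, hb, hdb⟩ := dG
      rw [h]
      exact ⟨G.symm, b, hG, hGs, G.symm_apply_apply, G.apply_symm_apply, hb, G0, hdb,
        fun z hz => hB2 z (hz.trans_le (min_le_right _ _))⟩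
  choose g c k1 k2 k3 k4 k5 k6 k7 k8 using key
  obtain ⟨-, φ, ψ, d1, d2, hra, e1, e2⟩ := Pool.Agent.TH238.main_lin Q (f := f) (g := g)
    (a := fun n => c n 0) (b := fun n => c n 1) (B := 1) (R := min R1 R2) k1 k2 k3 k4 hC hD hCD
    (fun n => k5 n 0) (fun n => k5 n 1) (lt_min hR1 hR2) k6
    (fun n v => by
      ext
      · rw [hQ1, k7, hQ1]
      · rw [hQ2, k7, hQ2]) k8
  rw [hset]
  exact ⟨φ, ψ, d1, d2, hra, e1, e2⟩

end Pool.Agent.Results.MP_bbd707_an.DiagonalPairs
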